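import Pool.Agent.Lib.MP_e46711_an.H36.Energy
import Pool.Agent.Lib.MP_e46711_an.H82.Basic

/-!
# Module C5a: comparison on the passive part
-/

set_option autoImplicit false

open Set Filter Topology MeasureTheory
open scoped ContDiff

namespace Pool.Agent.Lib.MP_e46711_an.H36

/-- The energy inequality for the positive part of the difference of a solution and a
supersolution on an interval. -/
theorem energy_pos {p L : ℝ} (hp : 0 < p) (hL : 0 ≤ L) {h u F U : ℝ → ℝ} {s t : ℝ} (hst : s ≤ t)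
    (hh : Continuous h) (hpos : ∀ r, 0 < h r) (du : ∀ r, HasDerivAt u (F r / h r) r)
    (dF : ∀ r, HasDerivAt F (-(L * (h r * gg p (u r)))) r)
    (hgg : Continuous (gg p)) (hU : Lip U s t)
    (hsup : ∀ Z, Lip Z s t → (∀ r, 0 ≤ Z r) → Z s = 0 → Z t = 0 →
      L * ∫ r in s..t, h r * (gg p (U r) * Z r) ≤ ∫ r in s..t, h r * (deriv U r * deriv Z r))
    (hs : u s ≤ U s) (ht : u t ≤ U t) :
    En h (fun r => max (u r - U r) 0) s t ≤ L * Sm h (fun r => max (u r - U r) 0) s t := by
  have hucont : Continuous u := continuous_iff_continuousAt.2 fun r => (du r).continuousAt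
  have hFcont : Continuous F := continuous_iff_continuousAt.2 fun r => (dF r).continuousAt
  have hu : Lip u s t := lip_of_deriv du
    (hFcont.div hh fun r => (hpos r).ne') s t
  have hF : Lip F s t := lip_of_deriv dF
    ((continuous_const.mul (hh.mul (hgg.comp hucont))).neg) s t
  set Z : ℝ → ℝ := fun r => max (u r - U r) 0 with hZdef
  have hZ : Lip Z s t := Lip.pos (Lip.sub hu hU)
  have hZ0 : ∀ r, 0 ≤ Z r := fun r => le_max_right _ _
  have hZs : Z s = 0 := max_eq_right (by linarith)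
  have hZt : Z t = 0 := max_eq_right (by linarith)
  have h1 := hsup Z hZ hZ0 hZs hZt
  -- integration by parts
  have h2 : ∫ r in s..t, F r * deriv Z r = L * ∫ r in s..t, h r * (gg p (u r) * Z r) := by
    rw [(Lip.ac hst hF).integral_mul_deriv_eq_deriv_mul (Lip.ac hst hZ), hZs, hZt]
    have : ∀ r, deriv F r * Z r = (-L) * (h r * (gg p (u r) * Z r)) := by
      intro r; rw [(dF r).deriv]; ring
    simp_rw [this]
    rw [intervalIntegral.integral_const_mul]
    ring
  have h3 : ∀ r, F r * deriv Z r = h r * (deriv u r * deriv Z r) := by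
    intro r
    rw [(du r).deriv]
    have := (hpos r).ne'
    field_simp
  simp_rw [h3] at h2
  have c1 : IntervalIntegrable (fun r => h r * (gg p (u r) * Z r)) volume s t := by
    refine ContinuousOn.intervalIntegrable ?_
    rw [uIcc_of_le hst]
    exact hh.continuousOn.mul ((hgg.comp hucont).continuousOn.mul (Lip.cont hZ))
  have c2 : IntervalIntegrable (fun r => h r * (gg p (U r) * Z r)) volume s t := by
    refine ContinuousOn.intervalIntegrable ?_
    rw [uIcc_of_le hst]
    exact hh.continuousOn.mul ((hgg.comp_continuousOn (Lip.cont hU)).mul (Lip.cont hZ))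
  have i1 := intInt_mul hst hh hu hZ
  have i2 := intInt_mul hst hh hU hZ
  -- the difference
  have h4 : (∫ r in s..t, h r * (deriv u r * deriv Z r)) -
      (∫ r in s..t, h r * (deriv U r * deriv Z r)) ≤
      L * ((∫ r in s..t, h r * (gg p (u r) * Z r)) - ∫ r in s..t, h r * (gg p (U r) * Z r)) := by
    rw [h2]; linarith
  rw [← intervalIntegral.integral_sub i1 i2, ← intervalIntegral.integral_sub c1 c2] at h4
  have h5 : (∫ r in s..t, (h r * (deriv u r * deriv Z r) - h r * (deriv U r * deriv Z r))) =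
      En h Z s t := by
    refine intervalIntegral.integral_congr_ae ?_
    have e1 := (Lip.ac hst hU).ae_differentiableAt
    have e3 : ∀ᵐ r : ℝ, r ≠ t := by
      rw [ae_iff]; simp
    filter_upwards [e1, e3] with r hr1 hr3 hrI
    rw [uIoc_of_le hst] at hrI
    have hr : r ∈ Ioo s t := ⟨hrI.1, lt_of_le_of_ne hrI.2 hr3⟩
    have hUd : DifferentiableAt ℝ U r := by
      apply hr1
      rw [uIcc_of_le hst]
      exact Ioo_subset_Icc_self hr
    have hw : DifferentiableAt ℝ (fun r => u r - U r) r := (du r).differentiableAt.sub hUd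
    have := deriv_pos (w := fun r => u r - U r) (Z := Z) (x := r)
      (Eventually.of_forall fun _ => rfl) hw
    rw [show deriv (fun r => u r - U r) r = deriv u r - deriv U r from
      deriv_sub (du r).differentiableAt hUd] at this
    calc h r * (deriv u r * deriv Z r) - h r * (deriv U r * deriv Z r)
        = h r * ((deriv u r - deriv U r) * deriv Z r) := by ring
      _ = h r * (deriv Z r) ^ 2 := by rw [this]
  rw [h5] at h4
  refine h4.trans (mul_le_mul_of_nonneg_left ?_ hL)
  refine intervalIntegral.integral_mono_on hst (c1.sub c2) (intInt_Sm hst hh hZ) fun r _ => ?_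
  have h6 : (gg p (u r) - gg p (U r)) * Z r ≤ Z r ^ 2 := by
    by_cases hc : U r ≤ u r
    · have hz : Z r = u r - U r := max_eq_left (by linarith)
      rw [hz]
      exact gg_mul_le hp _ _
    · have hz : Z r = 0 := max_eq_right (by push Not at hc; linarith)
      rw [hz]; simp
  calc h r * (gg p (u r) * Z r) - h r * (gg p (U r) * Z r)
      = h r * ((gg p (u r) - gg p (U r)) * Z r) := by ring
    _ ≤ h r * Z r ^ 2 := mul_le_mul_of_nonneg_left h6 (hpos r).le

/-- The mass on an interval of a function vanishing at the left end. -/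
theorem sm_left {h Z : ℝ → ℝ} {s t lo hi : ℝ} (hst : s ≤ t) (hh : Continuous h)
    (hpos : ∀ r, 0 < h r) (hZ : Lip Z s t) (hZs : Z s = 0) (hlo : 0 < lo)
    (hb : ∀ r ∈ Icc s t, h r ∈ Icc lo hi) :
    Sm h Z s t ≤ hi * (t - s) * ((t - s) / lo) * En h Z s t := by
  have hE := En_nonneg (u := Z) hst hpos
  have hhi : 0 ≤ hi := (hpos s).le.trans (hb s ⟨le_rfl, hst⟩).2
  have h1 : ∀ r ∈ Icc s t, Z r ^ 2 ≤ (t - s) / lo * En h Z s t := by
    intro r hr
    have h2 := cs hr.1 hh hpos (Lip.mono hZ (Icc_subset_Icc le_rfl hr.2))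
    rw [hZs, sub_zero] at h2
    have h3 : (∫ x in s..r, 1 / h x) ≤ (t - s) / lo := by
      calc (∫ x in s..r, 1 / h x) ≤ ∫ x in s..r, 1 / lo := by
            refine intervalIntegral.integral_mono_on hr.1 ((inv_cont hh hpos).intervalIntegrable _ _)
              (continuous_const.intervalIntegrable _ _) fun x hx => ?_
            exact one_div_le_one_div_of_le hlo (hb x ⟨hx.1, hx.2.trans hr.2⟩).1
        _ = (r - s) / lo := by rw [intervalIntegral.integral_const, smul_eq_mul]; ring
        _ ≤ (t - s) / lo := div_le_div_of_nonneg_right (by linarith [hr.2]) hlo.le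
    have h4 : 0 ≤ ∫ x in s..r, 1 / h x :=
      intervalIntegral.integral_nonneg hr.1 fun x _ => (one_div_pos.2 (hpos x)).le
    calc Z r ^ 2 ≤ (∫ x in s..r, 1 / h x) * En h Z s r := h2
      _ ≤ (t - s) / lo * En h Z s t :=
        mul_le_mul h3 (En_mono hr.1 hr.2 hh hpos hZ) (En_nonneg hr.1 hpos)
          (div_nonneg (by linarith) hlo.le)
  calc Sm h Z s t ≤ ∫ r in s..t, hi * ((t - s) / lo * En h Z s t) := by
        refine intervalIntegral.integral_mono_on hst (intInt_Sm hst hh hZ)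
          (continuous_const.intervalIntegrable _ _) fun r hr => ?_
        exact mul_le_mul (hb r hr).2 (h1 r hr) (sq_nonneg _) hhi
    _ = hi * (t - s) * ((t - s) / lo) * En h Z s t := by
        rw [intervalIntegral.integral_const, smul_eq_mul]; ring

theorem c5a (hP : PassiveStatement) : CompareStatement := by
  intro P
  obtain ⟨ν, hν, C, hC, hev⟩ := hP P
  have hL2 : 0 < P.L2 := P.hL0.trans (P.hL01.trans P.hL12)
  have hsmall : ∀ᶠ ε in 𝓝[>] (0:ℝ), P.L2 * (P.m / P.c * ε ^ 2) ≤ 1 / 2 := by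
    have : Tendsto (fun ε : ℝ => P.L2 * (P.m / P.c * ε ^ 2)) (𝓝[>] 0) (𝓝 (P.L2 * (P.m / P.c * 0 ^ 2))) :=
      ((continuous_const.mul (continuous_const.mul (continuous_pow 2))).tendsto 0).mono_left
        nhdsWithin_le_nhds
    have h2 : P.L2 * (P.m / P.c * 0 ^ 2) < 1 / 2 := by norm_num
    exact (this.eventually (gt_mem_nhds h2)).mono fun _ h => le_of_lt h
  filter_upwards [hev, hsmall, self_mem_nhdsWithin] with ε hpass hsm hε
  intro h hring L hL u F hsol U hU hu5 hu14
  have hε : 0 < ε := hε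
  have hε3 : 0 < ε ^ 3 := by positivity
  have hτ := P.hτ
  have o1 : P.s5 ε ≤ P.s6 ε := by simp only [Par.s5, Par.s6]; nlinarith
  have o2 : P.s6 ε ≤ P.s14 ε := by simp only [Par.s6, Par.s14]; nlinarith
  have hh : Continuous h := hring.smooth.continuous
  have hpos := hring.pos
  have hgg : Continuous (gg P.p) := continuous_gg P.hp0 P.hp1
  set Z : ℝ → ℝ := fun r => max (u r - U r) 0 with hZdef
  have hucont : Continuous u := continuous_iff_continuousAt.2 fun r => (hsol.du r).continuousAt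
  have hFcont : Continuous F := continuous_iff_continuousAt.2 fun r => (hsol.dF r).continuousAt
  have hulip : Lip u (P.s5 ε) (P.s14 ε) := lip_of_deriv hsol.du
    (hFcont.div hh fun r => (hpos r).ne') _ _
  have hZ : Lip Z (P.s5 ε) (P.s14 ε) := Lip.pos (Lip.sub hulip hU.1)
  have hZ5 : Z (P.s5 ε) = 0 := max_eq_right (by linarith)
  have hZ14 : Z (P.s14 ε) = 0 := max_eq_right (by linarith)
  have hE := energy_pos P.hp0 hL.1 (o1.trans o2) hh hpos hsol.du hsol.dF hgg hU.1 hU.2 hu5 hu14
  have hZ1 : Lip Z (P.s5 ε) (P.s6 ε) := Lip.mono hZ (Icc_subset_Icc le_rfl o2)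
  have hZ2 : Lip Z (P.s6 ε) (P.s14 ε) := Lip.mono hZ (Icc_subset_Icc o1 le_rfl)
  have hS := hpass h hring Z hZ2
  rw [hZ14] at hS
  have hJ : Sm h Z (P.s5 ε) (P.s6 ε) ≤ P.m / P.c * ε ^ 2 * En h Z (P.s5 ε) (P.s6 ε) := by
    have hlo : 0 < P.c * ε ^ 2 := by have := P.hc; positivity
    have h1 := sm_left o1 hh hpos hZ1 hZ5 hlo hring.hJ3
    have h2 : P.s6 ε - P.s5 ε = ε ^ 3 := by simp only [Par.s5, Par.s6]; ring
    rw [h2] at h1
    have h3 : P.m / ε ^ 2 * ε ^ 3 * (ε ^ 3 / (P.c * ε ^ 2)) = P.m / P.c * ε ^ 2 := by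
      have := P.hc.ne'
      field_simp
    rwa [h3] at h1
  have hEJ := En_nonneg (u := Z) o1 hpos
  have hEP := En_nonneg (u := Z) o2 hpos
  have hSP := Sm_nonneg (u := Z) o2 hpos
  have hSJ := Sm_nonneg (u := Z) o1 hpos
  have hEsplit := En_add o1 o2 hh hZ
  have hSsplit := Sm_add o1 o2 hh hZ
  have hEz : En h Z (P.s5 ε) (P.s14 ε) = 0 := by
    have hE' : En h Z (P.s5 ε) (P.s14 ε) ≤ L * Sm h Z (P.s5 ε) (P.s14 ε) := hE
    rw [hEsplit, hSsplit] at hE'
    set EJ := En h Z (P.s5 ε) (P.s6 ε)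
    set EP := En h Z (P.s6 ε) (P.s14 ε)
    set SJ := Sm h Z (P.s5 ε) (P.s6 ε)
    set SP := Sm h Z (P.s6 ε) (P.s14 ε)
    have k1 : L * (SJ + SP) ≤ P.L2 * (SJ + SP) :=
      mul_le_mul_of_nonneg_right hL.2 (by linarith)
    have k2 : P.L2 * SJ ≤ 1 / 2 * EJ := by
      calc P.L2 * SJ ≤ P.L2 * (P.m / P.c * ε ^ 2 * EJ) := mul_le_mul_of_nonneg_left hJ hL2.le
        _ = (P.L2 * (P.m / P.c * ε ^ 2)) * EJ := by ring
        _ ≤ 1 / 2 * EJ := mul_le_mul_of_nonneg_right hsm hEJ
    have k3 : (1 + ν) * (P.L2 * SP) ≤ (1 - ν) * EP := by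
      have : (0:ℝ) ^ 2 = 0 := by norm_num
      rw [this] at hS
      linarith
    have hν0 := hν.1
    have k4 : (1 + ν) * (EJ + EP) ≤ (1 + ν) * (1 / 2 * EJ) + (1 - ν) * EP := by
      have := mul_le_mul_of_nonneg_left (hE'.trans k1) (by linarith : (0:ℝ) ≤ 1 + ν)
      have k2' := mul_le_mul_of_nonneg_left k2 (by linarith : (0:ℝ) ≤ 1 + ν)
      nlinarith
    have k5 : EJ = 0 := by nlinarith
    have k6 : EP = 0 := by nlinarith
    rw [hEsplit]
    show EJ + EP = 0
    rw [k5, k6, add_zero]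
  intro s hs
  have h2 := cs hs.1 hh hpos (Lip.mono hZ (Icc_subset_Icc le_rfl hs.2))
  have h3 : En h Z (P.s5 ε) s = 0 :=
    le_antisymm ((En_mono hs.1 hs.2 hh hpos hZ).trans hEz.le) (En_nonneg hs.1 hpos)
  rw [h3, mul_zero, hZ5, sub_zero] at h2
  have h4 : Z s = 0 := by
    have := le_antisymm h2 (sq_nonneg _)
    exact pow_eq_zero_iff (two_ne_zero) |>.1 this
  have h5 : u s - U s ≤ Z s := le_max_left _ _
  linarith

end Pool.Agent.Lib.MP_e46711_an.H36
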