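import Pool.Agent.Lib.MP_e46711_an.DefsC

/-!
# Energies of Lipschitz functions: integrability, Cauchy-Schwarz, positive part
-/

set_option autoImplicit false

open Set Filter Topology MeasureTheory
open scoped ContDiff

namespace Pool.Agent.Lib.MP_e46711_an.H36

theorem Lip.sub {u v : ℝ → ℝ} {s t : ℝ} (hu : Lip u s t) (hv : Lip v s t) :
    Lip (fun r => u r - v r) s t := by
  obtain ⟨K, hK⟩ := hu
  obtain ⟨K', hK'⟩ := hv
  exact ⟨K + K', hK.sub hK'⟩

theorem Lip.pos {u : ℝ → ℝ} {s t : ℝ} (hu : Lip u s t) : Lip (fun r => max (u r) 0) s t := by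
  obtain ⟨K, hK⟩ := hu
  refine ⟨1 * K, ?_⟩
  exact (LipschitzWith.id.max_const (0:ℝ)).comp_lipschitzOnWith hK

theorem Lip.mono {u : ℝ → ℝ} {s t s' t' : ℝ} (hu : Lip u s t) (h : Icc s' t' ⊆ Icc s t) :
    Lip u s' t' := by
  obtain ⟨K, hK⟩ := hu
  exact ⟨K, hK.mono h⟩

theorem Lip.ac {u : ℝ → ℝ} {s t : ℝ} (hst : s ≤ t) (hu : Lip u s t) :
    AbsolutelyContinuousOnInterval u s t := by
  obtain ⟨K, hK⟩ := hu
  refine LipschitzOnWith.absolutelyContinuousOnInterval (K := K) ?_
  rwa [uIcc_of_le hst]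

theorem Lip.cont {u : ℝ → ℝ} {s t : ℝ} (hu : Lip u s t) : ContinuousOn u (Icc s t) := by
  obtain ⟨K, hK⟩ := hu
  exact hK.continuousOn

/-- A differentiable function with continuous derivative is Lipschitz on compact intervals. -/
theorem lip_of_deriv {u u' : ℝ → ℝ} (h : ∀ s, HasDerivAt u (u' s) s) (hc : Continuous u')
    (s t : ℝ) : Lip u s t := by
  obtain ⟨K, hK⟩ := isCompact_Icc.exists_bound_of_continuousOn (s := Icc s t) hc.continuousOn
  refine ⟨Real.toNNReal (max K 0), ?_⟩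
  refine (convex_Icc s t).lipschitzOnWith_of_nnnorm_hasDerivWithin_le
    (fun x _ => (h x).hasDerivWithinAt) fun x hx => ?_
  rw [← NNReal.coe_le_coe, coe_nnnorm, Real.coe_toNNReal _ (le_max_right _ _)]
  exact (hK x hx).trans (le_max_left _ _)

theorem Lip.deriv_bound {u : ℝ → ℝ} {s t : ℝ} (hu : Lip u s t) :
    ∃ K : ℝ, 0 ≤ K ∧ ∀ x ∈ Ioo s t, |deriv u x| ≤ K := by
  obtain ⟨K, hK⟩ := hu
  refine ⟨K, K.2, fun x hx => ?_⟩
  have := norm_deriv_le_of_lipschitzOn (Icc_mem_nhds hx.1 hx.2) hK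
  rwa [Real.norm_eq_abs] at this

/-- A measurable function which is bounded on the open interval is integrable. -/
theorem intInt {f : ℝ → ℝ} {s t : ℝ} (hst : s ≤ t) (hm : AEStronglyMeasurable f volume)
    (K : ℝ) (h : ∀ x ∈ Ioo s t, |f x| ≤ K) :
    IntervalIntegrable f volume s t := by
  rw [intervalIntegrable_iff_integrableOn_Ioo_of_le hst]
  refine Measure.integrableOn_of_bounded (M := K) ?_ hm ?_
  · simp
  · refine (ae_restrict_iff' measurableSet_Ioo).2 (Eventually.of_forall fun x hx => ?_)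
    rw [Real.norm_eq_abs]
    exact h x hx

theorem intInt_mul {h u v : ℝ → ℝ} {s t : ℝ} (hst : s ≤ t) (hh : Continuous h) (hu : Lip u s t)
    (hv : Lip v s t) :
    IntervalIntegrable (fun r => h r * (deriv u r * deriv v r)) volume s t := by
  obtain ⟨K, hK0, hK⟩ := Lip.deriv_bound hu
  obtain ⟨K', hK0', hK'⟩ := Lip.deriv_bound hv
  obtain ⟨C, hC⟩ := isCompact_Icc.exists_bound_of_continuousOn (s := Icc s t) hh.continuousOn
  refine intInt hst ?_ (max C 0 * (K * K')) fun x hx => ?_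
  · exact (hh.measurable.mul ((measurable_deriv u).mul (measurable_deriv v))).aestronglyMeasurable
  · rw [abs_mul, abs_mul]
    have h1 : |h x| ≤ max C 0 := by
      have := hC x (Ioo_subset_Icc_self hx)
      rw [Real.norm_eq_abs] at this
      exact this.trans (le_max_left _ _)
    exact mul_le_mul h1 (mul_le_mul (hK x hx) (hK' x hx) (abs_nonneg _) hK0)
      (mul_nonneg (abs_nonneg _) (abs_nonneg _)) (le_max_right _ _)

theorem intInt_En {h u : ℝ → ℝ} {s t : ℝ} (hst : s ≤ t) (hh : Continuous h) (hu : Lip u s t) :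
    IntervalIntegrable (fun r => h r * (deriv u r) ^ 2) volume s t := by
  simpa only [sq] using intInt_mul hst hh hu hu

theorem intInt_Sm {h u : ℝ → ℝ} {s t : ℝ} (hst : s ≤ t) (hh : Continuous h) (hu : Lip u s t) :
    IntervalIntegrable (fun r => h r * (u r) ^ 2) volume s t := by
  refine ContinuousOn.intervalIntegrable ?_
  rw [uIcc_of_le hst]
  exact hh.continuousOn.mul ((Lip.cont hu).pow 2)

theorem En_nonneg {h u : ℝ → ℝ} {s t : ℝ} (hst : s ≤ t) (hh : ∀ r, 0 < h r) :
    0 ≤ En h u s t :=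
  intervalIntegral.integral_nonneg hst fun r _ => mul_nonneg (hh r).le (sq_nonneg _)

theorem Sm_nonneg {h u : ℝ → ℝ} {s t : ℝ} (hst : s ≤ t) (hh : ∀ r, 0 < h r) :
    0 ≤ Sm h u s t :=
  intervalIntegral.integral_nonneg hst fun r _ => mul_nonneg (hh r).le (sq_nonneg _)

theorem En_add {h u : ℝ → ℝ} {s m t : ℝ} (hsm : s ≤ m) (hmt : m ≤ t) (hh : Continuous h)
    (hu : Lip u s t) : En h u s t = En h u s m + En h u m t := by
  unfold En
  rw [intervalIntegral.integral_add_adjacent_intervals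
    (intInt_En hsm hh (Lip.mono hu (Icc_subset_Icc le_rfl hmt)))
    (intInt_En hmt hh (Lip.mono hu (Icc_subset_Icc hsm le_rfl)))]

theorem Sm_add {h u : ℝ → ℝ} {s m t : ℝ} (hsm : s ≤ m) (hmt : m ≤ t) (hh : Continuous h)
    (hu : Lip u s t) : Sm h u s t = Sm h u s m + Sm h u m t := by
  unfold Sm
  rw [intervalIntegral.integral_add_adjacent_intervals
    (intInt_Sm hsm hh (Lip.mono hu (Icc_subset_Icc le_rfl hmt)))
    (intInt_Sm hmt hh (Lip.mono hu (Icc_subset_Icc hsm le_rfl)))]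

theorem En_mono {h u : ℝ → ℝ} {s m t : ℝ} (hsm : s ≤ m) (hmt : m ≤ t) (hh : Continuous h)
    (hpos : ∀ r, 0 < h r) (hu : Lip u s t) : En h u s m ≤ En h u s t := by
  rw [En_add hsm hmt hh hu]
  linarith [En_nonneg (u := u) hmt hpos]

theorem inv_cont {h : ℝ → ℝ} (hh : Continuous h) (hpos : ∀ r, 0 < h r) :
    Continuous fun r => 1 / h r :=
  continuous_const.div hh fun r => (hpos r).ne'

/-- Cauchy-Schwarz: `|u t - u s|^2 ≤ (∫ 1/h) * En`. -/
theorem cs {h u : ℝ → ℝ} {s t : ℝ} (hst : s ≤ t) (hh : Continuous h) (hpos : ∀ r, 0 < h r)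
    (hu : Lip u s t) : (u t - u s) ^ 2 ≤ (∫ r in s..t, 1 / h r) * En h u s t := by
  rcases hst.eq_or_lt with rfl | hlt
  · simp
  set R := ∫ r in s..t, 1 / h r with hR
  have hRpos : 0 < R := intervalIntegral.intervalIntegral_pos_of_pos_on
    ((inv_cont hh hpos).intervalIntegrable s t) (fun r _ => one_div_pos.2 (hpos r)) hlt
  set Δ := u t - u s with hΔ
  have hac := Lip.ac hst hu
  have h1 : ∫ r in s..t, deriv u r = Δ := hac.integral_deriv_eq_sub
  have h2 : 0 ≤ ∫ r in s..t, h r * (deriv u r - (Δ / R) * (1 / h r)) ^ 2 :=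
    intervalIntegral.integral_nonneg hst fun r _ => mul_nonneg (hpos r).le (sq_nonneg _)
  have h3 : ∀ r, h r * (deriv u r - (Δ / R) * (1 / h r)) ^ 2 =
      (h r * (deriv u r) ^ 2 - (2 * (Δ / R)) * deriv u r) + (Δ / R) ^ 2 * (1 / h r) := by
    intro r
    have := (hpos r).ne'
    field_simp
    ring
  have i1 := intInt_En hst hh hu
  have i2 : IntervalIntegrable (fun r => (2 * (Δ / R)) * deriv u r) volume s t :=
    hac.intervalIntegrable_deriv.const_mul _
  have i3 : IntervalIntegrable (fun r => (Δ / R) ^ 2 * (1 / h r)) volume s t :=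
    ((inv_cont hh hpos).intervalIntegrable s t).const_mul _
  simp_rw [h3] at h2
  rw [intervalIntegral.integral_add (i1.sub i2) i3, intervalIntegral.integral_sub i1 i2,
    intervalIntegral.integral_const_mul, intervalIntegral.integral_const_mul, h1, ← hR] at h2
  have h4 : (∫ r in s..t, h r * (deriv u r) ^ 2) = En h u s t := rfl
  rw [h4] at h2
  have h5 : (En h u s t - 2 * (Δ / R) * Δ + (Δ / R) ^ 2 * R) * R = R * En h u s t - Δ ^ 2 := by
    field_simp
    ring
  have h6 := mul_nonneg h2 hRpos.le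
  rw [h5] at h6
  linarith

/-- The derivative of a positive part. -/
theorem deriv_pos {w Z : ℝ → ℝ} {x : ℝ} (hZ : ∀ᶠ r in 𝓝 x, Z r = max (w r) 0)
    (hw : DifferentiableAt ℝ w x) : deriv w x * deriv Z x = deriv Z x ^ 2 := by
  by_cases h : 0 < w x
  · have h1 : Z =ᶠ[𝓝 x] w := by
      filter_upwards [hZ, hw.continuousAt.eventually (lt_mem_nhds h)] with r hr hr'
      rw [hr, max_eq_left (le_of_lt hr')]
    rw [h1.deriv_eq]; ring
  · have h1 : deriv Z x = 0 := by
      refine IsLocalMin.deriv_eq_zero ?_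
      have hx : Z x = 0 := by rw [hZ.self_of_nhds, max_eq_right (not_lt.1 h)]
      filter_upwards [hZ] with r hr
      rw [hx, hr]; exact le_max_right _ _
    rw [h1]; ring

end Pool.Agent.Lib.MP_e46711_an.H36
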